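import Mathlib
import Pool.Agent.Lib.MP_87d05f_lc.SP.Val
import Pool.Agent.Lib.MP_87d05f_lc.DG.Stm

set_option autoImplicit false

/-!
# SYMMETRIC SIDE CONSTRAINTS (max bisection, densest subgraph, ...): definitions (helper60)

An instance is a list of constraints with payoffs and a list of pairwise disjoint sets of variables,
each with a list of permitted vectors (numbers of variables with the values `0, ..., d - 1`).  The
sets are cut into blocks of `B` variables; the vector of every full block is guessed; the block
constraint is a payoff function of `B` variables, repeated often enough.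
-/

namespace Pool.Agent.Lib.MP_87d05f_lc.CC

open Pool.Agent.Lib.MP_87d05f_lc Pool.Agent.Lib.MP_87d05f_lc.SP Pool.Agent.PolyTime

/-! ### Programs (for variables of any type) -/

/-- a set of variables with its permitted vectors -/
abbrev Pt (V : Type) : Type := List V × List (List ℕ)

/-- all lists of length `n` with entries in `L` -/
def lsts {α : Type} (L : List α) : ℕ → List (List α)
  | 0 => [[]]
  | n + 1 => L.flatMap (fun x => (lsts L n).map (fun l => x :: l))

/-- the vectors with entries at most `B` -/
def cvs0 (d B : ℕ) : List (List ℕ) := lsts (List.range (B + 1)) d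

/-- the words for the guesses -/
def gtb (d B W : ℕ) : List (List Bool × List ℕ) := (lsts [false, true] W).zip (cvs0 d B)

/-- the entry of a word -/
def look (tb : List (List Bool × List ℕ)) (w : List Bool) : List ℕ :=
  Option.casesOn (tb.find? (fun e => decide (e.1 = w))) [] (fun e => e.2)

/-- the sum of vectors of length `d` -/
def sumv (d : ℕ) (l : List (List ℕ)) : List ℕ :=
  (List.range d).map (fun k => (l.map (fun c => c.getD k 0)).sum)

/-- subtraction of `S`, if possible -/
def subv (d : ℕ) (S c : List ℕ) : Option (List ℕ) :=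
  bif (List.range d).all (fun k => decide (S.getD k 0 ≤ c.getD k 0)) then
    some ((List.range d).map (fun k => c.getD k 0 - S.getD k 0)) else none

section gen

variable {V : Type} [DecidableEq V]

/-- renaming -/
def mp {V' : Type} (f : V → V') (p : Pt V) : Pt V' := (p.1.map f, p.2)

/-- the numbers of the variables in `vs` with the values `0, ..., d - 1` -/
def cnt (d : ℕ) (A : V → ℕ) (vs : List V) : List ℕ :=
  (List.range d).map (fun k => (vs.filter (fun v => decide (A v = k))).length)

/-- the assignment obeys the side constraints -/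
def Mat (d : ℕ) (A : V → ℕ) (P : List (Pt V)) : Prop := ∀ p ∈ P, cnt d A p.1 ∈ p.2

/-- only the vectors of the right length and sum are kept -/
def nrm (d : ℕ) (p : Pt V) : Pt V :=
  (p.1, p.2.filter (fun c => decide (c.length = d) && decide (c.sum = p.1.length)))

/-- the full blocks with the position of their set -/
def fuls (B : ℕ) (P : List (Pt V)) : List (ℕ × List V) :=
  P.zipIdx.flatMap (fun q => (List.range (mydiv q.1.1.length B)).map
    (fun i => (q.2, (q.1.1.drop (B * i)).take B)))

/-- the full blocks with the guessed vectors -/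
def gful (tb : List (List Bool × List ℕ)) (W B : ℕ) (P : List (Pt V)) (s : List Bool) :
    List (ℕ × (List V × List ℕ)) :=
  (fuls B P).zipIdx.map (fun q => (q.1.1, (q.1.2, look tb ((s.drop (W * q.2)).take W))))

/-- the remainders of the sets -/
def rems (tb : List (List Bool × List ℕ)) (W B d : ℕ) (P : List (Pt V)) (s : List Bool) :
    List (Pt V) :=
  P.zipIdx.map (fun q => (q.1.1.drop (B * mydiv q.1.1.length B),
    q.1.2.filterMap (subv d (sumv d
      (((gful tb W B P s).filter (fun f => decide (f.1 = q.2))).map (fun f => f.2.2))))))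

/-- all blocks -/
def blks (tb : List (List Bool × List ℕ)) (W B d : ℕ) (P : List (Pt V)) (s : List Bool) :
    List (Pt V) :=
  ((gful tb W B P s).map (fun f => (f.2.1, [f.2.2])) ++ rems tb W B d P s).map (nrm d)

/-- every block has a permitted vector -/
def okB (BL : List (Pt V)) : Bool := BL.all (fun b => !b.2.isEmpty)

/-- the places of a constraint with values -/
def prs (vs : List V) (xs : List ℕ) : List (V × ℕ) :=
  vs.zipIdx.map (fun e => (e.1, xs.getD e.2 0))

/-- equal variables have equal values -/
def conz (z : List (V × ℕ)) : Bool :=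
  z.all (fun p => z.all (fun q => bif decide (p.1 = q.1) then decide (p.2 = q.2) else true))

/-- the number of variables of the block `b` with value `k` -/
def occz (z : List (V × ℕ)) (b : List V) (k : ℕ) : ℕ :=
  (ded ((z.filter (fun p => decide (p.2 = k) && decide (p.1 ∈ b))).map Prod.fst)).length

/-- the values are compatible with the blocks -/
def fits (d : ℕ) (BL : List (Pt V)) (z : List (V × ℕ)) : Bool :=
  BL.all (fun b => b.2.any (fun c => (List.range d).all (fun k =>
    decide (occz z b.1 k ≤ c.getD k 0))))

/-- some values compatible with the blocks give a positive payoff -/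
def usf (tb : TabV) (d : ℕ) (BL : List (Pt V)) (c : List Bool × List V) : Bool :=
  tb.any (fun e => decide (e.1.1 = c.1) && (decide (0 < e.2) &&
    (conz (prs c.2 e.1.2) && fits d BL (prs c.2 e.1.2))))

/-- the symbol of a block constraint -/
def syW (tbS : List ((ℕ × List Bool) × List Bool)) (key : ℕ × List Bool) : List Bool :=
  Option.casesOn (tbS.find? (fun e => decide (e.1 = key))) [] (fun e => e.2)

/-- the block constraint -/
def bkW (tbS : List ((ℕ × List Bool) × List Bool)) (cv : List (List ℕ)) (b : Pt V) :
    List Bool × List V :=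
  (syW tbS (b.1.length, cv.map (fun u => decide (u ∈ b.2))), b.1)

/-- the instance without side constraints: the useful constraints, and for every place of them in
a block `M` copies of the block constraint -/
def qns (M : ℕ) (tb : TabV) (tbS : List ((ℕ × List Bool) × List Bool)) (cv : List (List ℕ))
    (d : ℕ) (BL : List (Pt V)) (G : List (List Bool × List V)) : List (List Bool × List V) :=
  G.filter (usf tb d BL) ++ (G.filter (usf tb d BL)).flatMap (fun c => c.2.flatMap (fun v =>
    (BL.filter (fun b => decide (v ∈ b.1))).flatMap (fun b => List.replicate M (bkW tbS cv b))))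

/-- the first permitted vector, written out on the variables of the block -/
def can (d : ℕ) (b : Pt V) : List (V × ℕ) :=
  prs b.1 ((List.range d).flatMap (fun k => List.replicate ((b.2.headD []).getD k 0) k))

/-- the value of a variable in a list of pairs -/
def lku (y : List (V × ℕ)) (v : V) : ℕ :=
  Option.casesOn (y.find? (fun e => decide (e.1 = v))) 0 (fun e => e.2)

/-- the assignment repaired on the blocks which are not as permitted -/
def fixA (d : ℕ) (BL : List (Pt V)) (A : V → ℕ) (v : V) : ℕ :=
  Option.casesOn (BL.find? (fun b => decide (v ∈ b.1))) (A v)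
    (fun b => bif decide (cnt d A b.1 ∈ b.2) then A v else lku (can d b) v)

end gen

/-! ### The language -/

section lang

variable {g d : ℕ} {ar : Fin g → ℕ}

/-- the new symbols: the old ones and, for every size at most `B` and every set of vectors, the
block symbol -/
abbrev SyC (g d B : ℕ) : Type := Fin g ⊕ (Fin (B + 1) × Finset (Fin d → Fin (B + 1)))

/-- the number of block symbols -/
def NC (d B : ℕ) : ℕ := Fintype.card (Fin (B + 1) × Finset (Fin d → Fin (B + 1)))

/-- the symbols are numbered, the old ones as before -/
noncomputable def eC (g d B : ℕ) : SyC g d B ≃ Fin (g + NC d B) :=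
  (Equiv.sumCongr (Equiv.refl (Fin g))
    (Fintype.equivFin (Fin (B + 1) × Finset (Fin d → Fin (B + 1))))).trans finSumFinEquiv

/-- the arities -/
def arC (B : ℕ) (ar : Fin g → ℕ) : SyC g d B → ℕ
  | Sum.inl i => ar i
  | Sum.inr z => (z.1 : ℕ)

open Classical in
/-- the payoffs -/
noncomputable def phC {B : ℕ} (φ : (i : Fin g) → (Fin (ar i) → Fin d) → ℕ) :
    (s : SyC g d B) → (Fin (arC B ar s) → Fin d) → ℕ
  | Sum.inl i, x => φ i x
  | Sum.inr z, x => if ∃ c ∈ z.2, ∀ k : Fin d,
      (Finset.univ.filter (fun j => x j = k)).card = (c k : ℕ) then 1 else 0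

/-- the arities of the numbered symbols -/
noncomputable def arY (d B : ℕ) (ar : Fin g → ℕ) : Fin (g + NC d B) → ℕ :=
  fun s => arC B ar ((eC g d B).symm s)

/-- the payoffs of the numbered symbols -/
noncomputable def phY (B : ℕ) (φ : (i : Fin g) → (Fin (ar i) → Fin d) → ℕ) :
    (s : Fin (g + NC d B)) → (Fin (arY d B ar s) → Fin d) → ℕ :=
  fun s x => phC φ ((eC g d B).symm s) x

/-- an old constraint -/
noncomputable def oldC (B : ℕ) (c : Con ar) : Con (arY d B ar) :=
  ⟨eC g d B (Sum.inl c.1), fun j => (List.ofFn c.2).getD (j : ℕ) 0⟩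

/-- the set of vectors of a block -/
def setB (d B : ℕ) (b : Pt ℕ) : Finset (Fin d → Fin (B + 1)) :=
  Finset.univ.filter (fun c => List.ofFn (fun k => (c k : ℕ)) ∈ b.2)

/-- a block constraint -/
noncomputable def blkC (B : ℕ) (ar : Fin g → ℕ) (b : Pt ℕ) : Con (arY d B ar) :=
  ⟨eC g d B (Sum.inr (⟨min b.1.length B, by omega⟩, setB d B b)),
    fun j => b.1.getD (j : ℕ) 0⟩

/-- the table of the block symbols -/
noncomputable def tabS (g d B : ℕ) : List ((ℕ × List Bool) × List Bool) :=
  (Finset.univ : Finset (Fin (B + 1) × Finset (Fin d → Fin (B + 1)))).toList.map (fun z =>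
    (((z.1 : ℕ), (cvs0 d B).map (fun u => decide (∃ c ∈ z.2, u = List.ofFn (fun k => (c k : ℕ))))),
      Nat.bits ((eC g d B (Sum.inr z) : Fin (g + NC d B)) : ℕ)))

/-- a constraint as a pair -/
def gcn (c : Con ar) : List Bool × List ℕ := (Nat.bits (c.1 : ℕ), List.ofFn c.2)

/-- the useful constraints -/
noncomputable def usT (φ : (i : Fin g) → (Fin (ar i) → Fin d) → ℕ) (BL : List (Pt ℕ))
    (F : List (Con ar)) : List (Con ar) := F.filter (fun c => usf (tabV φ) d BL (gcn c))

/-- the block constraints (as blocks), one for every place of a useful constraint in a block -/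
noncomputable def plT (φ : (i : Fin g) → (Fin (ar i) → Fin d) → ℕ) (BL : List (Pt ℕ))
    (F : List (Con ar)) : List (Pt ℕ) :=
  (usT φ BL F).flatMap (fun c => (List.ofFn c.2).flatMap (fun v =>
    BL.filter (fun b => decide (v ∈ b.1))))

/-- the instance without side constraints -/
noncomputable def qnC (B M : ℕ) (φ : (i : Fin g) → (Fin (ar i) → Fin d) → ℕ) (BL : List (Pt ℕ))
    (F : List (Con ar)) : List (Con (arY d B ar)) :=
  (usT φ BL F).map (oldC B) ++
    (plT φ BL F).flatMap (fun b => List.replicate M (blkC B ar b))

end lang

/-! ### Words -/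

section words

variable {g d : ℕ} {ar : Fin g → ℕ}

/-- the words of a set of variables -/
def partC (p : Pt ℕ) : List (List (List Bool)) :=
  (List.replicate p.2.length true :: p.1.map Nat.bits) ::
    p.2.map (fun c => c.map (fun k => List.replicate k true))

/-- the code of an instance with side constraints -/
def enP (I : List (Pt ℕ) × List (Con ar)) : List Bool :=
  encW ([List.replicate I.1.length true] :: (I.1.flatMap partC ++ I.2.map wordC))

/-- the code of an instance with a threshold -/
def enT (I : ℕ × (List (Pt ℕ) × List (Con ar))) : List Bool :=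
  encW ([List.replicate I.1 true, List.replicate I.2.1.length true] ::
    (I.2.1.flatMap partC ++ I.2.2.map wordC))

/-- reading one set -/
def pst (r : List (List (List Bool)) × List (Pt (List Bool))) :
    List (List (List Bool)) × List (Pt (List Bool)) :=
  (r.1.tail.drop ((r.1.headD []).headD []).length,
    r.2 ++ [((r.1.headD []).tail, (r.1.tail.take ((r.1.headD []).headD []).length).map
      (fun c => c.map List.length))])

/-- reading an instance -/
def prsP (x : List Bool) : List (Pt (List Bool)) × List (List (List Bool)) :=
  (fun r : List (List (List Bool)) × List (Pt (List Bool)) => (r.2, r.1))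
    (pst^[(((parseW x).headD []).headD []).length] ((parseW x).tail, []))

/-- the first word and the other words -/
def gw (c : List (List Bool)) : List Bool × List (List Bool) := (c.headD [], c.tail)

/-- the list of words of a pair -/
def wrd (c : List Bool × List (List Bool)) : List (List Bool) := c.1 :: c.2

/-- all variables -/
def vsP (I : List (Pt ℕ) × List (Con ar)) : List ℕ := I.1.flatMap Prod.fst ++ plc I.2

/-- the number of variables -/
def nvP (I : List (Pt ℕ) × List (Con ar)) : ℕ := (vsP I).toFinset.card

/-- the side constraints are about disjoint sets and can be obeyed -/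
def PrP (d : ℕ) (I : List (Pt ℕ) × List (Con ar)) : Prop :=
  (I.1.flatMap Prod.fst).Nodup ∧ ∀ p ∈ I.1, ∃ c ∈ p.2, c.length = d ∧ c.sum = p.1.length

/-- the values of all variables of the sets and of all places, in unary -/
def ouP (I : List (Pt ℕ) × List (Con ar)) (a : ℕ → Fin d) : List Bool :=
  (vsP I).flatMap (fun v => List.replicate (a v : ℕ) true ++ [false])

/-- the assignment obeys the side constraints -/
def MaT (a : ℕ → Fin d) (P : List (Pt ℕ)) : Prop := Mat d (fun v => (a v : ℕ)) P

/-- the answer of the search problem -/
def goP (φ : (i : Fin g) → (Fin (ar i) → Fin d) → ℕ) (ε : ℚ)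
    (I : List (Pt ℕ) × List (Con ar)) (w : List Bool) : Prop :=
  ∃ a : ℕ → Fin d, MaT a I.1 ∧ w = ouP I a ∧ ∀ a' : ℕ → Fin d, MaT a' I.1 →
    (1 - ε) * ((valC φ a' I.2 : ℕ) : ℚ) ≤ ((valC φ a I.2 : ℕ) : ℚ)

/-- some obeying assignment has value at least `t` -/
def YP (φ : (i : Fin g) → (Fin (ar i) → Fin d) → ℕ)
    (I : ℕ × (List (Pt ℕ) × List (Con ar))) : Prop :=
  ∃ a : ℕ → Fin d, MaT a I.2.1 ∧ I.1 ≤ valC φ a I.2.2

/-- all obeying assignments have value less than `(1 - ε) t` -/
def NP (φ : (i : Fin g) → (Fin (ar i) → Fin d) → ℕ) (ε : ℚ)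
    (I : ℕ × (List (Pt ℕ) × List (Con ar))) : Prop :=
  ∀ a : ℕ → Fin d, MaT a I.2.1 → ((valC φ a I.2.2 : ℕ) : ℚ) < (1 - ε) * (I.1 : ℚ)

end words

end Pool.Agent.Lib.MP_87d05f_lc.CC
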