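import Mathlib
import Pool.Agent.Lib.MP_87d05f_lc.CC.Defs
import Pool.Agent.Lib.MP_87d05f_lc.SP.Seq

set_option autoImplicit false

/-!
# SYMMETRIC SIDE CONSTRAINTS: statements with complete proofs in words (helper60)

Pieces go to `CC/P/<name>.lean`, namespace `Pool.Agent.Lib.MP_87d05f_lc.CC`, theorem `p_<name>` with
the statements a piece uses as hypotheses in the given order, e.g. `theorem p_SEM (h1 : S_LK) ... :
S_SEM`.  Private names should start with the name of the piece.  `PTime` and its closure
properties: `Lib/PolyTime/Typed.lean`, `Eq.lean`; models of `PTime` proofs: `SP/Val.lean`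
(`lkv_ptime`, `payW_lkv_ptime`, `asc_ptime`), `Parse.lean` (`ded_ptime`), `Thin.lean`
(`mydiv_ptime`), `BlockProg.lean`.
-/

namespace Pool.Agent.Lib.MP_87d05f_lc.CC

open Pool.Agent.Lib.MP_87d05f_lc Pool.Agent.Lib.MP_87d05f_lc.SP Pool.Agent.PolyTime Turing

/-- the assignment repaired on the blocks, as an assignment -/
def fixT {d : ℕ} (hd : 0 < d) (BL : List (Pt ℕ)) (a : ℕ → Fin d) (v : ℕ) : Fin d :=
  ⟨min (fixA d BL (fun v => (a v : ℕ)) v) (d - 1), by omega⟩

/-- the blocks are disjoint and small, their vectors have the right length and sum -/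
def Blo (d B : ℕ) (BL : List (Pt ℕ)) : Prop :=
  (BL.flatMap Prod.fst).Nodup ∧ ∀ b ∈ BL, b.1.length ≤ B ∧ ∀ c ∈ b.2, c.length = d ∧
    c.sum = b.1.length

/-! ## Vectors and blocks -/

/-- [LK] The guesses reach all vectors.  (`lsts`: length and members by induction on `n`;
`(lsts [false, true] W).Nodup`; the `i`-th vector stands beside the `i`-th word, `i < (B + 1) ^ d ≤
2 ^ W`, and `find?` on the zip of a list without repetition finds this entry.)  Last part: for
instance `B = 2 ^ s - 1`, `W = s * d` with `(2 * b * d + 1) * s ≤ 2 ^ s`, `1 ≤ s` (`exists_exp` in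
`KMain.lean`). -/
def S_LK : Prop :=
  (∀ (d B : ℕ) (c : List ℕ), c ∈ cvs0 d B ↔ c.length = d ∧ ∀ x ∈ c, x ≤ B) ∧
  (∀ d B : ℕ, (cvs0 d B).length = (B + 1) ^ d) ∧
  (∀ (d B W : ℕ), (B + 1) ^ d ≤ 2 ^ W → ∀ c ∈ cvs0 d B,
    ∃ w : List Bool, w.length = W ∧ look (gtb d B W) w = c) ∧
  (∀ d b : ℕ, ∃ B W : ℕ, 0 < B ∧ (B + 1) ^ d ≤ 2 ^ W ∧ 2 * b * W ≤ B)

/-- [BL] The blocks.  (With `k = |vs| / B` (`mydiv_eq`) the list `vs` is the concatenation of
`(vs.drop (B * i)).take B`, `i < k`, and `vs.drop (B * k)`; so the list of all variables of the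
blocks is a permutation of the list of the variables of the sets: `List.flatMap_append_perm`, or
count every variable.  `nrm` keeps only vectors of length `d` with the right sum.  `fuls` has
`∑ |vs| / B` elements.  `nrm` does not change the variables.) -/
def S_BL : Prop := ∀ (tb : List (List Bool × List ℕ)) (W B d : ℕ) (P : List (Pt ℕ)) (s : List Bool),
  0 < B →
  ((P.flatMap Prod.fst).Nodup → Blo d B (blks tb W B d P s)) ∧
  (∀ b ∈ blks tb W B d P s, ∀ v ∈ b.1, v ∈ P.flatMap Prod.fst) ∧
  B * (fuls B P).length ≤ (P.flatMap Prod.fst).length ∧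
  fuls B (P.map (nrm d)) = fuls B P ∧
  (∀ b ∈ P.map (nrm (V := ℕ) d), ∀ c ∈ b.2, c.length = d ∧ c.sum = b.1.length) ∧
  (P.map (nrm (V := ℕ) d)).flatMap Prod.fst = P.flatMap Prod.fst ∧
  (∀ a : ℕ → Fin d, MaT a (P.map (nrm d)) ↔ MaT a P)

/-- [F1] (uses LK) The right guess.  The word `s` is the concatenation over the full blocks (in
the order of `fuls`) of words of length `W` whose entries are the vectors `cnt d a vs` of the blocks
(entries at most `B`, length `d`: members of `cvs0`); `(s.drop (W * i)).take W` is the `i`-th of them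
(compare `take_chunks`, `BlockInv.lean`).  For a remainder: `cnt d a` is additive on
concatenations, so `cnt d a vs = S + cnt d a rem` entrywise with `S` the sum of the vectors of the
full blocks of this set, hence `subv d S (cnt d a vs) = some (cnt d a rem)` and it survives `nrm`
because `cnt d a rem` has length `d` and sum `|rem|` (all values are less than `d`). -/
def S_F1 : Prop := ∀ (d B W : ℕ) (P : List (Pt ℕ)) (a : ℕ → Fin d), 0 < B →
  (B + 1) ^ d ≤ 2 ^ W → MaT a P →
  ∃ s : List Bool, s.length = W * (fuls B P).length ∧ MaT a (blks (gtb d B W) W B d P s)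

/-- [F2] An assignment with the guessed vectors on the blocks obeys the side constraints.  (For the
set number `j`: the full blocks have `cnt d a vs_i = c_i`, so `S = ∑ cnt d a vs_i`; for the
remainder `cnt d a rem` is in the `filterMap`, so it is `c - S` with `c ∈ T`, `S ≤ c`; hence
`cnt d a vs = S + cnt d a rem = c`; `c` has length `d`.) -/
def S_F2 : Prop := ∀ (tb : List (List Bool × List ℕ)) (W B d : ℕ) (P : List (Pt ℕ))
  (s : List Bool) (a : ℕ → Fin d), 0 < B → (∀ p ∈ P, ∀ c ∈ p.2, c.length = d) →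
  MaT a (blks tb W B d P s) → MaT a P

/-! ## Useful constraints -/

/-- [U1] Constraints which are not useful have payoff `0` if the blocks are as permitted.  (If
`φ i (a ∘ args) > 0`, the entry `e = ((bits i, values), payoff)` of `tabV φ` shows that the
constraint is useful: `conz` holds; for a block `b` take the vector `cnt d a b.1 ∈ b.2`: the
different variables of the constraint in `b.1` with value `k` are among the variables of `b.1` with
value `k`.) -/
def S_U1 : Prop := ∀ (d g : ℕ) (ar : Fin g → ℕ) (φ : (i : Fin g) → (Fin (ar i) → Fin d) → ℕ)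
  (BL : List (Pt ℕ)) (F : List (Con ar)) (a : ℕ → Fin d), MaT a BL →
  valC φ a F = valC φ a (usT φ BL F)

/-- [U2] A useful constraint has a positive payoff for some assignment which is as permitted on the
blocks.  (The entry `e` of the table gives values `x` for the places; for a block `b` let `c ∈ b.2`
be the vector in `fits`; give the variables of the constraint in `b.1` their values, and distribute
the remaining values (value `k` exactly `c_k - occz` times) over the other variables of `b.1`: their
number is `|b.1| - ∑ occz = ∑ (c_k - occz)` because `c.sum = |b.1|`.  Good way in Lean: a general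
lemma: for a list `vs` without repetition, a partial assignment on a sublist and a vector `c` with
`c.sum = |vs|`, entries at least the numbers of the partial assignment, there is an extension;
induction on `vs`.  The blocks are disjoint, so the assignments of the blocks can be put together;
outside the blocks take the values `x` on the places and `0` elsewhere.) -/
def S_U2 : Prop := ∀ (d g B : ℕ) (ar : Fin g → ℕ) (φ : (i : Fin g) → (Fin (ar i) → Fin d) → ℕ)
  (BL : List (Pt ℕ)) (F : List (Con ar)), 0 < d → Blo d B BL → okB BL = true →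
  ∀ c ∈ usT φ BL F, ∃ a : ℕ → Fin d, MaT a BL ∧ 1 ≤ φ c.1 (fun j => a (c.2 j))

/-- [U3] (uses U2, RE; `nth_average` in `SP/P/nth.lean`) Some assignment as permitted has a large value.
SUPER-VARIABLES: domain `Fin D`, `D = d ^ (B + 1)`, identified with `Fin (B + 1) → Fin d`
(`finFunctionFinEquiv` or `Fintype.equivFin`).  `id v = 2 * (position of the block of v in BL)`, or
`2 * v + 1` if `v` is in no block.  `arr (id v) y v`: for `v` in a block `b` the value `y (position
of v in b.1)` if the assignment `u ↦ y (position of u)` has its vector in `b.2`, otherwise the value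
at `v` of a fixed assignment as permitted (`fixT hd BL` of any assignment, by RE with `g = 0`,
`M = 0`); for `v` in no block the value `y 0`.  For `A : ℕ → Fin D` the assignment
`dec A v = arr (id v) (A (id v)) v` is as permitted, and every assignment as permitted is `dec A`
for some `A`.  Language: one symbol for every useful constraint `c_i`, arity `K`-bounded
`ar c_i.1`, payoff `ψ_i y = φ c_i.1 (fun j => arr (id (c_i.2 j)) (y j) (c_i.2 j))`, constraint
`(i, fun j => id (c_i.2 j))`; apply `nth_average` with `d := D`. -/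
def S_U3 : Prop := ∀ (d g B K : ℕ) (ar : Fin g → ℕ) (φ : (i : Fin g) → (Fin (ar i) → Fin d) → ℕ)
  (BL : List (Pt ℕ)) (F : List (Con ar)), 0 < d → (∀ i, ar i ≤ K) → Blo d B BL →
  okB BL = true → ∃ a : ℕ → Fin d, MaT a BL ∧
    (usT φ BL F).length ≤ (d ^ (B + 1)) ^ K * valC φ a (usT φ BL F)

/-- [VA] The value of the instance without side constraints.  (`oldC`: the symbol is `eC (inl i)`,
`(eC).symm` of it is `inl i`; the arities agree, `getD` on `List.ofFn`.  `blkC`: the payoff is `1`
if and only if `cnt d a b.1 ∈ b.2`: the numbers `card {j | a (b.1.getD j 0) = k}` are the entries of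
`cnt` and at most `|b.1| ≤ B`, so they form an element of `Fin d → Fin (B + 1)`; the vectors in
`b.2` have length `d`.) -/
def S_VA : Prop := ∀ (d g B M : ℕ) (ar : Fin g → ℕ) (φ : (i : Fin g) → (Fin (ar i) → Fin d) → ℕ)
  (BL : List (Pt ℕ)) (F : List (Con ar)) (a : ℕ → Fin d), Blo d B BL →
  valC (phY B φ) a (qnC B M φ BL F) = valC φ a (usT φ BL F) +
    M * ((plT φ BL F).filter (fun b => decide (cnt d (fun v => (a v : ℕ)) b.1 ∈ b.2))).length

/-- [RE] The repair.  (`can d b` gives the variables of `b` the values of the first vector `c` of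
`b.2`: the list of values has length `c.sum = |b.1|`, `k` occurs `c_k` times, `b.1` has no
repetition, so its `cnt` is `c`; all values are less than `d`.  `fixA` agrees with `a` outside the
blocks and on the blocks with `cnt d a b.1 ∈ b.2`; the block found for `v` is the only one
containing `v`.  Inequality: constraint by constraint of `usT`: if it has no place in a block which
is not as permitted, the payoffs agree; otherwise the payoff is at most `M`, and the blocks of its
places which are not as permitted contribute at least `M` to `M * (|plT| - number of blocks in plT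
as permitted)`.) -/
def S_RE : Prop := ∀ (d g B M : ℕ) (ar : Fin g → ℕ) (φ : (i : Fin g) → (Fin (ar i) → Fin d) → ℕ)
  (BL : List (Pt ℕ)) (F : List (Con ar)) (hd : 0 < d) (a : ℕ → Fin d), (∀ i x, φ i x ≤ M) →
  Blo d B BL → okB BL = true →
  MaT (fixT hd BL a) BL ∧
  (∀ v, (fixT hd BL a v : ℕ) = fixA d BL (fun v => (a v : ℕ)) v) ∧
  valC φ a (usT φ BL F) +
    M * ((plT φ BL F).filter (fun b => decide (cnt d (fun v => (a v : ℕ)) b.1 ∈ b.2))).length ≤
  valC φ (fixT hd BL a) (usT φ BL F) + M * (plT φ BL F).length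

/-- [PL] The number of block constraints: every place is in at most one block. -/
def S_PL : Prop := ∀ (d g B K : ℕ) (ar : Fin g → ℕ) (φ : (i : Fin g) → (Fin (ar i) → Fin d) → ℕ)
  (BL : List (Pt ℕ)) (F : List (Con ar)), (∀ i, ar i ≤ K) → Blo d B BL →
  (plT φ BL F).length ≤ K * (usT φ BL F).length

/-- the blocks for a guess -/
def BLs (d B W : ℕ) (P : List (Pt ℕ)) (s : List Bool) : List (Pt ℕ) :=
  blks (gtb d B W) W B d (P.map (nrm d)) s

/-- the number of guessed bits -/
def gbt (d B W : ℕ) (P : List (Pt ℕ)) : ℕ := W * (fuls B (P.map (nrm (V := ℕ) d))).length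

/-- near-optimal -/
def NOp {d g : ℕ} {ar : Fin g → ℕ} (φ : (i : Fin g) → (Fin (ar i) → Fin d) → ℕ) (ε : ℚ)
    (F : List (Con ar)) (a : ℕ → Fin d) : Prop :=
  ∀ a' : ℕ → Fin d, (1 - ε) * ((valC φ a' F : ℕ) : ℚ) ≤ ((valC φ a F : ℕ) : ℚ)

/-- [SE] (uses BL, F1, F2, U1, U3, VA, RE, PL) SEMANTICS.  (1): `PrP` gives
`okB (P.map (nrm d))`, so by RE (with any assignment, for the sets instead of the blocks, `B` large)
some assignment obeys the side constraints; F1 gives `s`; a block with a permitted vector is ok.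
(2): RE, F2, BL.  (3): let `a*` be an obeying assignment with the largest value `X` (values are
bounded); it is enough to have `(1 - ε) X ≤ val`.  Let `s*` be its guess (F1 for `P.map (nrm d)`),
`BL* = BLs s*`, `n_p = |plT|`, `u = |usT|` for `BL*`.  The instance `qnC` for `BL*` has the value
`X + M n_p` at `a*` (VA, U1), so the near-optimal `a = an s*` has value at least
`(1 - ε') (X + M n_p)`; by RE and U1 this is at most `valC φ (fixT a) F + M n_p`.  By U3, U1, F2:
`u ≤ D X` with `D = (d ^ (B + 1)) ^ K`, and `n_p ≤ K u` (PL).  So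
`valC φ (fixT a) F ≥ X - ε' (X + M n_p) ≥ X - ε' (1 + M K D) X = (1 - ε) X` for
`ε' = ε / (1 + M K D)`.  The given `s` has at least this value. -/
def S_SE : Prop := ∀ (d g B W K M : ℕ) (ar : Fin g → ℕ)
  (φ : (i : Fin g) → (Fin (ar i) → Fin d) → ℕ) (hd : 0 < d) (I : List (Pt ℕ) × List (Con ar))
  (ε : ℚ), 0 < B → (B + 1) ^ d ≤ 2 ^ W → (∀ i, ar i ≤ K) → (∀ i x, φ i x ≤ M) → PrP d I →
  0 < ε → ε < 1 →
  (∃ s : List Bool, s.length = gbt d B W I.1 ∧ okB (BLs d B W I.1 s) = true) ∧
  (∀ (s : List Bool) (a : ℕ → Fin d), okB (BLs d B W I.1 s) = true →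
    MaT (fixT hd (BLs d B W I.1 s) a) I.1) ∧
  ∀ an : List Bool → ℕ → Fin d,
    (∀ s : List Bool, s.length = gbt d B W I.1 → okB (BLs d B W I.1 s) = true →
      NOp (phY B φ) (ε / (1 + M * K * (d ^ (B + 1)) ^ K))
        (qnC B M φ (BLs d B W I.1 s) I.2) (an s)) →
    ∀ s : List Bool, s.length = gbt d B W I.1 → okB (BLs d B W I.1 s) = true →
      (∀ s' : List Bool, s'.length = gbt d B W I.1 → okB (BLs d B W I.1 s') = true →
        valC φ (fixT hd (BLs d B W I.1 s') (an s')) I.2 ≤
          valC φ (fixT hd (BLs d B W I.1 s) (an s)) I.2) →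
      ∀ a' : ℕ → Fin d, MaT a' I.1 → (1 - ε) * ((valC φ a' I.2 : ℕ) : ℚ) ≤
        ((valC φ (fixT hd (BLs d B W I.1 s) (an s)) I.2 : ℕ) : ℚ)

/-! ## Words -/

/-- [NA] Renaming with an injective map: the blocks.  (All operations commute with `List.map`.) -/
def S_NA : Prop := ∀ (tb : List (List Bool × List ℕ)) (W B d : ℕ) (P : List (Pt ℕ)) (s : List Bool),
  blks tb W B d (P.map (mp Nat.bits)) s = (blks tb W B d P s).map (mp Nat.bits) ∧
  fuls B (P.map (mp Nat.bits)) = (fuls B P).map (fun q => (q.1, q.2.map Nat.bits)) ∧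
  (P.map (mp Nat.bits)).map (nrm d) = (P.map (nrm d)).map (mp Nat.bits) ∧
  okB (P.map (mp Nat.bits)) = okB P

/-- [NB] Renaming: the instance.  (`bits_injective`; `ded` of a mapped list: `ded (l.map f) =
(ded l).map f` for injective `f`, see `nvC_eq`-like lemmas; `idxOf`-free definitions.) -/
def S_NB : Prop := ∀ (M : ℕ) (tb : TabV) (tbS : List ((ℕ × List Bool) × List Bool))
  (cv : List (List ℕ)) (d : ℕ) (BL : List (Pt ℕ)) (G : List (List Bool × List ℕ)),
  qns M tb tbS cv d (BL.map (mp Nat.bits)) (G.map (fun c => (c.1, c.2.map Nat.bits))) =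
    (qns M tb tbS cv d BL G).map (fun c => (c.1, c.2.map Nat.bits))

/-- [NC] Renaming: the repair. -/
def S_NC : Prop := ∀ (d : ℕ) (BL : List (Pt ℕ)) (A : List Bool → ℕ) (v : ℕ),
  fixA d (BL.map (mp Nat.bits)) A (Nat.bits v) = fixA d BL (fun v => A (Nat.bits v)) v

/-- [TY] (uses LK) The typed instance.  (`wordC (oldC B c) = wordC c` because `eC (inl i)` has the value `i`
(`finSumFinEquiv_apply_left`, `Fin.val_castAdd`) and the arities agree; for a block `b` the key
`(|b.1|, cv.map (· ∈ b.2))` is the key of `(|b.1|, setB d B b)` in `tabS`, and different elements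
have different keys (every `c : Fin d → Fin (B + 1)` is in `cvs0`, see LK), so `syW` finds
`bits (eC (inr ..))`; `wordC (blkC B ar b)` has the variables `b.1` (arity `min |b.1| B = |b.1|`).) -/
def S_TY : Prop := ∀ (d g B M : ℕ) (ar : Fin g → ℕ) (φ : (i : Fin g) → (Fin (ar i) → Fin d) → ℕ)
  (BL : List (Pt ℕ)) (F : List (Con ar)), Blo d B BL →
  ((qns M (tabV φ) (tabS g d B) (cvs0 d B) d BL (F.map gcn)).map
    (fun c => (c.1, c.2.map Nat.bits))).map wrd = (qnC B M φ BL F).map wordC

/-! ## Polynomial time -/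

/-- [PB] The blocks are computed in polynomial time. -/
def S_PB : Prop := ∀ (tb : List (List Bool × List ℕ)) (W B d : ℕ),
  PTime (fun x : List (Pt (List Bool)) × List Bool => blks tb W B d x.1 x.2) ∧
  PTime (fun P : List (Pt (List Bool)) => fuls B P) ∧
  PTime (fun P : List (Pt (List Bool)) => P.map (nrm d)) ∧
  PTime (fun P : List (Pt (List Bool)) => okB P)

/-- [PQ] The instance is computed in polynomial time. -/
def S_PQ : Prop := ∀ (M : ℕ) (tb : TabV) (tbS : List ((ℕ × List Bool) × List Bool))
  (cv : List (List ℕ)) (d : ℕ),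
  PTime (fun x : List (Pt (List Bool)) × List (List Bool × List (List Bool)) =>
    qns M tb tbS cv d x.1 x.2)

/-- [PF] The repair is computed in polynomial time. -/
def S_PF : Prop := ∀ d : ℕ,
  PTime (fun x : (List (Pt (List Bool)) × List (List Bool × ℕ)) × List Bool =>
    fixA d x.1.1 (lkv x.1.2) x.2)

/-- [PP] Reading.  (`iterate_of_bound`: the size of the state is at most a constant times
`1 +` the size of the input plus the number of steps; the number of steps, a length of a word of
the input, is bounded by the size of the input.  Correctness: induction on the list of sets.) -/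
def S_PP : Prop := PTime prsP ∧
  ∀ (d g : ℕ) (ar : Fin g → ℕ) (I : List (Pt ℕ) × List (Con ar)),
    prsP (enP I) = (I.1.map (mp Nat.bits), I.2.map wordC)

/-! ## Machines -/

/-- [LP] THE LOOP WITH CALLS and a word as output: `oracle_machine_out` (`OutMachine.lean`) for any
`Callable` subroutine (`SP/Seq.lean`; the proofs of `oracle_machine_out` and `two_calls` are the
models). -/
def S_LP : Prop := ∀ (K : Type) [DecidableEq K] [Fintype K] (σ α : Type) [SCode σ] [SCode α]
  (A : List Bool → ℕ → α), Callable K A →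
  ∀ (init : List Bool → σ) (query : σ → Qry) (next : α → σ → σ) (dn : σ → Bool)
    (out : σ → List Bool), PTime init → PTime query → PTime (fun p : α × σ => next p.1 p.2) →
    PTime dn → PTime out →
  ∃ (tm' : FinTM2) (e₀' : tm'.Γ tm'.k₀ ≃ Bool) (e₁' : tm'.Γ tm'.k₁ ≃ Bool)
    (P : Polynomial ℕ) (κ : ℕ), ∀ (x : List Bool) (N B R : ℕ) (st : ℕ → σ), 1 ≤ N →
    st 0 = init x →
    (∀ i, i < N → st (i + 1) =
      next (A (query (st i)).1 ((query (st i)).2.1 * 2 ^ (query (st i)).2.2)) (st i)) →
    (∀ i, i ≤ N → sz (st i) ≤ B) →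
    (∀ i, i < N → sz (A (query (st i)).1 ((query (st i)).2.1 * 2 ^ (query (st i)).2.2)) ≤ B) →
    (∀ i, i < N → qcost (query (st i)) ≤ R) →
    (∀ i, 1 ≤ i → i < N → dn (st i) = false) → dn (st N) = true →
    ∀ m : ℕ, P.eval x.length + N * (P.eval B + κ * R) ≤ m →
    Nonempty (TM2OutputsInTime tm' (x.map e₀'.symm) (some ((out (st N)).map e₁'.symm)) m)

/-- [GF] (uses LP) THE BEST GUESS.  All words `s` of length `dep x` are tried; for those with
`ok (x, s)` the given machine answers the query `f (x, s)` (time bound `C (|f| + 1) ^ e 2 ^ h`), for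
the others the query `([], (0, 0))` is asked and its answer ignored (it is `[]`: no step is
simulated, empty input); the pair `(s, answer)` with the largest score `sc` is kept (in a list of at
most one element `(score, (s, w))`).  State: `(x, (s, (overflow, best)))`; `incS`, `rkS`,
`incS_spec`, `rkS_zeros`, `iter_rank` (`BlockProg.lean`, `BlockInv.lean`) and the use of them in
`search_main` (`BlockMain.lean`) are the model; `ansW`, `exists_callW` as in `seq_find`
(`SP/Seq.lean`).  Number of steps at most `2 ^ dep`; cost of a query at most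
`poly (L) * 2 ^ h`, and `dep + h ≤ μ₁ / b₁`.  In the end the list `best` is the element for a word
`s` with `ok` and the largest score among all words. -/
def S_GF : Prop := ∀ (I₁ I₂ : Type) (en₁ : I₁ → List Bool) (en₂ : I₂ → List Bool)
  (V₁ : I₁ → Prop) (V₂ : I₂ → Prop) (good₁ : I₁ → List Bool → Prop)
  (good₂ : I₂ → List Bool → Prop) (μ₁ : I₁ → ℕ) (μ₂ : I₂ → ℕ) (b₁ b₂ : ℕ)
  (J : I₁ → List Bool → I₂) (dep : List Bool → ℕ) (ok : List Bool × List Bool → Bool)
  (f : List Bool × List Bool → List Bool) (h : List Bool × List Bool → ℕ)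
  (sc : List Bool × (List Bool × List Bool) → ℕ)
  (out : List Bool × (List Bool × List Bool) → List Bool) (Q : ℕ → ℕ),
  PolyB Q → PTime dep → PTime ok → PTime f → PTime h → PTime sc → PTime out →
  (∀ F, V₁ F → μ₁ F ≤ (en₁ F).length) →
  (∀ F, V₁ F → dep (en₁ F) ≤ μ₁ F / b₁) →
  (∀ F, V₁ F → ∃ s : List Bool, s.length = dep (en₁ F) ∧ ok (en₁ F, s) = true) →
  (∀ F, V₁ F → ∀ s : List Bool, s.length = dep (en₁ F) → ok (en₁ F, s) = true →
    V₂ (J F s) ∧ en₂ (J F s) = f (en₁ F, s) ∧ μ₂ (J F s) / b₂ ≤ h (en₁ F, s) ∧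
    dep (en₁ F) + h (en₁ F, s) ≤ μ₁ F / b₁ ∧
    ∀ w, good₂ (J F s) w → w.length ≤ Q (en₁ F).length) →
  (∀ F, V₁ F → ∀ an : List Bool → List Bool,
    (∀ s : List Bool, s.length = dep (en₁ F) → ok (en₁ F, s) = true → good₂ (J F s) (an s)) →
    ∀ s : List Bool, s.length = dep (en₁ F) → ok (en₁ F, s) = true →
      (∀ s' : List Bool, s'.length = dep (en₁ F) → ok (en₁ F, s') = true →
        sc (en₁ F, (s', an s')) ≤ sc (en₁ F, (s, an s))) →
      good₁ F (out (en₁ F, (s, an s)))) →
  GFind en₂ V₂ good₂ μ₂ b₂ → GFind en₁ V₁ good₁ μ₁ b₁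

/-! ## The programs on codes -/

section prog

variable (d B W : ℕ)

/-- the blocks -/
def wBL (x : List Bool × List Bool) : List (Pt (List Bool)) :=
  blks (gtb d B W) W B d ((prsP x.1).1.map (nrm d)) x.2

/-- the number of guessed bits -/
def wdep (x : List Bool) : ℕ := W * (fuls B ((prsP x).1.map (nrm d))).length

/-- the variables -/
def wvs (x : List Bool) : List (List Bool) :=
  (prsP x).1.flatMap Prod.fst ++ (prsP x).2.flatMap List.tail

/-- the exponent -/
def whh (b : ℕ) (x : List Bool × List Bool) : ℕ := mydiv (ded (wvs x.1)).length b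

/-- the instance without side constraints -/
def wqn (M : ℕ) (tb : TabV) (tbS : List ((ℕ × List Bool) × List Bool))
    (x : List Bool × List Bool) : List (List (List Bool)) :=
  (qns M tb tbS (cvs0 d B) d (wBL d B W x) ((prsP x.1).2.map gw)).map wrd

/-- the value of a variable under the repaired answer -/
def wva (M : ℕ) (tb : TabV) (tbS : List ((ℕ × List Bool) × List Bool))
    (y : List Bool × (List Bool × List Bool)) (v : List Bool) : ℕ :=
  fixA d (wBL d B W (y.1, y.2.1)) (lkv (asc (wqn d B W M tb tbS (y.1, y.2.1)) y.2.2)) v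

/-- the value of the instance -/
def wsc (M : ℕ) (tb : TabV) (tbS : List ((ℕ × List Bool) × List Bool))
    (y : List Bool × (List Bool × List Bool)) : ℕ :=
  ((prsP y.1).2.map (fun c => payW tb (wva d B W M tb tbS y) c)).sum

/-- the output -/
def wou (M : ℕ) (tb : TabV) (tbS : List ((ℕ × List Bool) × List Bool))
    (y : List Bool × (List Bool × List Bool)) : List Bool :=
  (wvs y.1).flatMap (fun v => List.replicate (wva d B W M tb tbS y v) true ++ [false])

end prog

/-- [PG] (uses PB, PQ, PF, PP) All programs are polynomial-time. -/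
def S_PG : Prop := ∀ (d B W M b : ℕ) (tb : TabV) (tbS : List ((ℕ × List Bool) × List Bool)),
  PTime (wdep d B W) ∧ PTime (fun x => okB (wBL d B W x)) ∧
  PTime (fun x => encW (wqn d B W M tb tbS x)) ∧ PTime (whh b) ∧
  PTime (wsc d B W M tb tbS) ∧ PTime (wou d B W M tb tbS)

/-- zero outside the variables of an instance -/
noncomputable def zer {d g : ℕ} {ar : Fin g → ℕ} (hd : 0 < d) (F : List (Con ar))
    (a : ℕ → Fin d) (v : ℕ) : Fin d := if v ∈ plc F then a v else ⟨0, hd⟩

/-- [CO] (uses PP, NA, NB, NC, TY, BL, RE) The programs on the code of an instance.  (`prsP (enP I)`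
by PP; `(I.2.map wordC).map gw = (I.2.map gcn).map (fun c => (c.1, c.2.map Nat.bits))`; `asc_eq`,
`lkv_map`, and `lkv` is `0` on words which do not occur; `tab` (`SP/P/tab.lean`) for `payW`: the
payoff in words; `fixT`-value by RE.  The number of variables: `nvC_eq`-like,
`ded_length`, `bits_injective`.) -/
def S_CO : Prop := ∀ (d g B W M b : ℕ) (ar : Fin g → ℕ)
  (φ : (i : Fin g) → (Fin (ar i) → Fin d) → ℕ) (hd : 0 < d) (I : List (Pt ℕ) × List (Con ar)),
  0 < B → 0 < b → (∀ i x, φ i x ≤ M) → PrP d I →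
  wdep d B W (enP I) = gbt d B W I.1 ∧
  (∀ s, whh b (enP I, s) = nvP I / b) ∧
  ∀ s : List Bool,
    okB (wBL d B W (enP I, s)) = okB (BLs d B W I.1 s) ∧
    wqn d B W M (tabV φ) (tabS g d B) (enP I, s) = (qnC B M φ (BLs d B W I.1 s) I.2).map wordC ∧
    nvC (qnC B M φ (BLs d B W I.1 s) I.2) ≤ nvP I ∧
    (okB (BLs d B W I.1 s) = true → ∀ a : ℕ → Fin d,
      wsc d B W M (tabV φ) (tabS g d B)
          (enP I, (s, outW (qnC B M φ (BLs d B W I.1 s) I.2) a)) =
        valC φ (fixT hd (BLs d B W I.1 s)
          (zer hd (qnC B M φ (BLs d B W I.1 s) I.2) a)) I.2 ∧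
      wou d B W M (tabV φ) (tabS g d B) (enP I, (s, outW (qnC B M φ (BLs d B W I.1 s) I.2) a)) =
        ouP I (fixT hd (BLs d B W I.1 s) (zer hd (qnC B M φ (BLs d B W I.1 s) I.2) a)))

/-- [LN] Sizes: `nvP I ≤ |enP I|`, and the number of places of the instance without side
constraints is polynomial: `|outW ..|` is at most a polynomial (the second component: by PG, with
`PTime.sz_le` for `encW (wqn ..)` and `plc_length_le`).  (uses PG, CO) -/
def S_LN : Prop := ∀ (d g B W M : ℕ) (ar : Fin g → ℕ)
  (φ : (i : Fin g) → (Fin (ar i) → Fin d) → ℕ), 0 < d → 0 < B → (∀ i x, φ i x ≤ M) →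
  (∀ I : List (Pt ℕ) × List (Con ar), nvP I ≤ (enP I).length) ∧
  ∃ Q : ℕ → ℕ, PolyB Q ∧ ∀ I : List (Pt ℕ) × List (Con ar), PrP d I → ∀ (s : List Bool)
    (a : ℕ → Fin d), s.length ≤ (enP I).length →
    (outW (qnC B M φ (BLs d B W I.1 s) I.2) a).length ≤ Q (enP I).length

/-! ## The results -/

/-- [SC] (uses LK, BL, SE, GF, PG, CO, LN; `nfndThm` in `SP/Asm.lean` is the hypothesis `NfndS`)
SEARCH.  `M`, `K` bounds of the payoffs and arities, `B`, `W` from LK for `b` (so
`dep = W * |fuls| ≤ W * (n / B) ≤ n / (2 b)`), `ε' = p / (q (1 + M K D))`, `NfndS` for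
`phY B φ`, `ε'` and `2 * b`; GF with `J I s = qnC B M φ (BLs .. s) I.2`, `en₂ = codeC`,
`μ₂ = nvC`, `b₂ = 2 * b`, `h = whh (2 * b)`, `dep = wdep`.  An answer `an s = outW (J I s) a_s`
(choice), replace `a_s` by `zer .. a_s` (the same value on `J I s`), SE (3).  `wsc` and `wou` by
CO. -/
def S_SC : Prop := NfndS → ∀ (d g : ℕ) (ar : Fin g → ℕ)
  (φ : (i : Fin g) → (Fin (ar i) → Fin d) → ℕ), 0 < d →
  (∀ k p q b : ℕ, 3 ≤ k → 0 < p → p < q → 0 < b →
    SepK k (fun _ => True) ((p : ℚ) / (q : ℕ)) b) →
  ∀ p q b : ℕ, 0 < p → p < q → 0 < b →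
  GFind (enP (ar := ar)) (PrP d) (goP φ ((p : ℚ) / (q : ℕ))) nvP b

/-- [DC] (uses PP, LN) THRESHOLD FROM SEARCH, as `SF_max` (`DG/P/SF.lean`): `find_transfer` to
`en₂ = enP` with `f x = encW (((parseW x).headD []).tail :: (parseW x).tail)`, and the output
`[decide (q t ≤ q val + p t)]`, where `val` is the value of the constraints (words) under the
association list of the list of all variables (`wvs`) with the values `valsU w`; as `valX_eq`. -/
def S_DC : Prop := ∀ (d g : ℕ) (ar : Fin g → ℕ) (φ : (i : Fin g) → (Fin (ar i) → Fin d) → ℕ)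
  (p q b : ℕ), 0 < d → 0 < p → p < q → 0 < b →
  GFind (enP (ar := ar)) (PrP d) (goP φ ((p : ℚ) / (q : ℕ))) nvP b →
  GSep (enT (ar := ar)) (fun I => PrP d I.2) (YP φ) (NP φ ((p : ℚ) / (q : ℕ)))
    (fun I => nvP I.2) b

/-- [UN] Instances without side constraints are a special case: `transfer` (`Transfer.lean`) with
`f x = encW (((parseW x).headD [] ++ [[]]) :: (parseW x).tail)`, `F' = (t, ([], F))`; the same for
the search problem with `find_transfer`, `f x = encW ([[]] :: parseW x)`, output unchanged. -/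
def S_UN : Prop := ∀ (d g : ℕ) (ar : Fin g → ℕ) (φ : (i : Fin g) → (Fin (ar i) → Fin d) → ℕ)
  (ε : ℚ) (b : ℕ), 0 < b →
  (GSep (enT (ar := ar)) (fun I => PrP d I.2) (YP φ) (NP φ ε) (fun I => nvP I.2) b →
    GSep (enM (ar := ar)) (fun _ => True) (YM φ) (NM φ ε) (fun I => nvC I.2) b) ∧
  (GFind (enP (ar := ar)) (PrP d) (goP φ ε) nvP b →
    GFind (codeC (ar := ar)) (fun _ => True) (goodMax φ ε) nvC b)

end Pool.Agent.Lib.MP_87d05f_lc.CC
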