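import Mathlib
import Pool.Agent.Lib.MP_87d05f_lc.CC.P.LK
import Pool.Agent.Lib.MP_87d05f_lc.CC.P.BL
import Pool.Agent.Lib.MP_87d05f_lc.CC.P.F1
import Pool.Agent.Lib.MP_87d05f_lc.CC.P.F2
import Pool.Agent.Lib.MP_87d05f_lc.CC.P.U1
import Pool.Agent.Lib.MP_87d05f_lc.CC.P.U2
import Pool.Agent.Lib.MP_87d05f_lc.CC.P.U3
import Pool.Agent.Lib.MP_87d05f_lc.CC.P.VA
import Pool.Agent.Lib.MP_87d05f_lc.CC.P.RE
import Pool.Agent.Lib.MP_87d05f_lc.CC.P.PL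
import Pool.Agent.Lib.MP_87d05f_lc.CC.P.SE
import Pool.Agent.Lib.MP_87d05f_lc.CC.P.NA
import Pool.Agent.Lib.MP_87d05f_lc.CC.P.NB
import Pool.Agent.Lib.MP_87d05f_lc.CC.P.NC
import Pool.Agent.Lib.MP_87d05f_lc.CC.P.TY
import Pool.Agent.Lib.MP_87d05f_lc.CC.P.PB
import Pool.Agent.Lib.MP_87d05f_lc.CC.P.PQ
import Pool.Agent.Lib.MP_87d05f_lc.CC.P.PF
import Pool.Agent.Lib.MP_87d05f_lc.CC.P.PP
import Pool.Agent.Lib.MP_87d05f_lc.CC.P.LP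
import Pool.Agent.Lib.MP_87d05f_lc.CC.P.GF
import Pool.Agent.Lib.MP_87d05f_lc.CC.P.PG
import Pool.Agent.Lib.MP_87d05f_lc.CC.P.CO
import Pool.Agent.Lib.MP_87d05f_lc.CC.P.LN
import Pool.Agent.Lib.MP_87d05f_lc.CC.P.SC
import Pool.Agent.Lib.MP_87d05f_lc.CC.P.DC
import Pool.Agent.Lib.MP_87d05f_lc.CC.P.UN

set_option autoImplicit false

/-!
# Putting the pieces together
-/

namespace Pool.Agent.Lib.MP_87d05f_lc.CC

theorem ccPG : S_PG := p_PG p_PB p_PQ p_PF p_PP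

theorem ccCO : S_CO := p_CO p_PP p_NA p_NB p_NC (p_TY p_LK) p_BL p_RE

theorem ccSE : S_SE :=
  p_SE p_BL (p_F1 p_LK) p_F2 p_U1 (p_U3 p_U2 p_RE) p_VA p_RE p_PL

theorem ccSearch : S_SC := p_SC p_LK p_BL ccSE (p_GF p_LP) ccPG ccCO (p_LN ccPG ccCO)

theorem ccDec : S_DC := p_DC p_PP (p_LN ccPG ccCO)

theorem ccUn : S_UN := p_UN

end Pool.Agent.Lib.MP_87d05f_lc.CC
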